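import Pool.Agent.Run7.h204.BaseSzC

/-!
# MP_3e5dca_al, Q1 (negative answer)

Every faithful action of the symmetric group of degree `n`, transitive or not, has a base of at most
`n` points.
-/

namespace Pool.Agent.Results.MP_3e5dca_al.BaseSizeAtMostDegree

open Equiv

/-- `B` is a base for the action of `G` on `X`: only the identity fixes all the points of `B`. -/
def IsBase (G : Type*) [Group G] {X : Type*} [MulAction G X] (B : Finset X) : Prop :=
  ∀ g : G, (∀ x ∈ B, g • x = x) → g = 1

/-- The base size: the smallest cardinality of a base. -/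
noncomputable def baseSize (G : Type*) [Group G] (X : Type*) [MulAction G X] : ℕ :=
  sInf {k : ℕ | ∃ B : Finset X, IsBase G B ∧ B.card = k}

/-- For every `n` and every faithful action of the symmetric group of degree `n` on a set `X`
there is a base of minimal cardinality, and this cardinality is at most `n`. -/
theorem result (n : ℕ) (X : Type*) [MulAction (Perm (Fin n)) X] [FaithfulSMul (Perm (Fin n)) X] :
    (∃ B : Finset X, IsBase (Perm (Fin n)) B ∧ B.card = baseSize (Perm (Fin n)) X) ∧
      baseSize (Perm (Fin n)) X ≤ n := by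
  classical
  obtain ⟨B, h1, h2⟩ := Run7.h204.BaseSz.main (α := Fin n) (X := X)
  rw [Fintype.card_fin] at h1
  have hne : {k : ℕ | ∃ B : Finset X, IsBase (Perm (Fin n)) B ∧ B.card = k}.Nonempty :=
    ⟨B.card, B, h2, rfl⟩
  refine ⟨Nat.sInf_mem hne, ?_⟩
  have hle : baseSize (Perm (Fin n)) X ≤ B.card := by
    unfold baseSize
    exact Nat.sInf_le ⟨B, h2, rfl⟩
  exact hle.trans h1

end Pool.Agent.Results.MP_3e5dca_al.BaseSizeAtMostDegree
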